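import Mathlib

namespace Pool.Agent.Results.MP_e9025c_co.Cyclic

open Finset

/-- A word with wild cards over the letters 0, 1 is a list over `Option Bool`; `none` is the
wild card. `ch w k` is the character at place `k` (counted from 0). -/
def ch (w : List (Option Bool)) (k : ℕ) : Option Bool := w.getD k none

/-- The word `u` of length `n` is covered by `w` at position `i`. -/
def Covers (n : ℕ) (w : List (Option Bool)) (u : Fin n → Bool) (i : ℕ) : Prop :=
  i + n ≤ w.length ∧ ∀ j : Fin n, ∀ b : Bool, ch w (i + j) = some b → u j = b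

/-- Every binary word of length `n` is covered at exactly one position. -/
def Universal (n : ℕ) (w : List (Option Bool)) : Prop :=
  ∀ u : Fin n → Bool, ∃! i : ℕ, Covers n w u i

/-- All windows contain the same number of wild cards. -/
def WellDefined (n : ℕ) (w : List (Option Bool)) : Prop :=
  ∃ d : ℕ, ∀ i : ℕ, i + n ≤ w.length → ((w.drop i).take n).count none = d

/-- The first and the last `n - 1` characters agree and the two blocks do not overlap. -/
def IsCyclic (n : ℕ) (w : List (Option Bool)) : Prop :=
  w.take (n - 1) = w.drop (w.length - (n - 1)) ∧ 2 * (n - 1) ≤ w.length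

lemma count_eq (w : List (Option Bool)) (n : ℕ) : ∀ i : ℕ, i + n ≤ w.length →
    ((w.drop i).take n).count none = ∑ j ∈ range n, if ch w (i + j) = none then 1 else 0 := by
  induction n with
  | zero => intro i _; simp
  | succ n ih =>
    intro i hi
    have hlt : i + n < w.length := by omega
    rw [List.take_add_one, List.count_append, ih i (by omega), sum_range_succ]
    congr 1
    have h1 : (w.drop i)[n]? = some (w[i + n]) := by
      rw [List.getElem?_drop]; exact List.getElem?_eq_getElem hlt
    have h2 : ch w (i + n) = w[i + n] := by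
      unfold ch; exact List.getD_eq_getElem _ _ hlt
    rw [h1, h2]
    cases w[i + n] <;> simp

def M (w : List (Option Bool)) (m i : ℕ) (v : ℕ → Bool) : Prop :=
  ∀ j < m, ∀ b : Bool, ch w (i + j) = some b → v j = b

def c (w : List (Option Bool)) (k : ℕ) : ℕ := if ch w k = none then 2 else 1

lemma sum_one {N : ℕ} {P : ℕ → Prop} [DecidablePred P] (h : ∃! i, i < N ∧ P i) :
    (∑ i ∈ range N, if P i then 1 else 0) = 1 := by
  obtain ⟨i, ⟨hi, hP⟩, hu⟩ := h
  rw [sum_eq_single i]
  · simp [hP]
  · intro j hj hne
    rw [if_neg]
    intro hj'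
    exact hne (hu j ⟨mem_range.1 hj, hj'⟩)
  · intro h; exact absurd (mem_range.2 hi) h

open Classical in
lemma two_ok (w : List (Option Bool)) (k : ℕ) (P : Prop) :
    ((if P ∧ (∀ b, ch w k = some b → true = b) then 1 else 0) +
      (if P ∧ (∀ b, ch w k = some b → false = b) then 1 else 0) : ℕ) =
      if P then c w k else 0 := by
  unfold c
  by_cases hP : P
  · rcases h : ch w k with _ | b
    · simp [hP]
    · cases b <;> simp [hP]
  · simp [hP]

open Classical in
lemma sumA (m N : ℕ) (w : List (Option Bool)) (hL : w.length = N + m)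
    (hU : Universal (m + 1) w) (v : ℕ → Bool) :
    (∑ i ∈ range N, if M w m i v then c w (i + m) else 0) = 2 := by
  have key : ∀ y : Bool, (∑ i ∈ range N,
      if M w m i v ∧ (∀ b, ch w (i + m) = some b → y = b) then 1 else 0) = 1 := by
    intro y
    apply sum_one
    have := hU (fun j => if (j : ℕ) < m then v j else y)
    refine (existsUnique_congr ?_).1 this
    intro i
    constructor
    · rintro ⟨h1, h2⟩
      refine ⟨by omega, fun j hj b hb => ?_, fun b hb => ?_⟩
      · have := h2 ⟨j, by omega⟩ b hb
        simpa [hj] using this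
      · have := h2 ⟨m, by omega⟩ b hb
        simpa using this
    · rintro ⟨h1, h2, h3⟩
      refine ⟨by omega, fun j b hb => ?_⟩
      by_cases hj : (j : ℕ) < m
      · simpa [hj] using h2 j hj b hb
      · have : (j : ℕ) = m := by omega
        rw [this] at hb
        simpa [hj] using h3 b hb
  have := congrArg₂ (· + ·) (key true) (key false)
  simp only [← sum_add_distrib, two_ok] at this
  exact this

open Classical in
lemma sumB (m N : ℕ) (w : List (Option Bool)) (hL : w.length = N + m)
    (hU : Universal (m + 1) w) (v : ℕ → Bool) :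
    (∑ i ∈ range N, if M w m (i + 1) v then c w i else 0) = 2 := by
  have key : ∀ y : Bool, (∑ i ∈ range N,
      if M w m (i + 1) v ∧ (∀ b, ch w i = some b → y = b) then 1 else 0) = 1 := by
    intro y
    apply sum_one
    have := hU (fun j => if (j : ℕ) = 0 then y else v (j - 1))
    refine (existsUnique_congr ?_).1 this
    intro i
    constructor
    · rintro ⟨h1, h2⟩
      refine ⟨by omega, fun j hj b hb => ?_, fun b hb => ?_⟩
      · have := h2 ⟨j + 1, by omega⟩ b (by rw [← hb]; congr 1; simp; omega)
        simpa using this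
      · have := h2 ⟨0, by omega⟩ b hb
        simpa using this
    · rintro ⟨h1, h2, h3⟩
      refine ⟨by omega, fun j b hb => ?_⟩
      by_cases hj : (j : ℕ) = 0
      · rw [hj] at hb
        simpa [hj] using h3 b hb
      · have := h2 (j - 1) (by omega) b (by rw [← hb]; congr 1; omega)
        simpa [hj] using this
  have := congrArg₂ (· + ·) (key true) (key false)
  simp only [← sum_add_distrib, two_ok] at this
  exact this

lemma c_pos (w : List (Option Bool)) (k : ℕ) : 0 < c w k := by
  unfold c; split_ifs <;> omega

lemma M_ext (w : List (Option Bool)) (m a b : ℕ) (h : ∀ v, M w m a v → M w m b v) (j : ℕ)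
    (hj : j < m) (x : Bool) (hb : ch w (b + j) = some x) : ch w (a + j) = some x := by
  by_contra hne
  have := h (fun t => if t = j then !x else (ch w (a + t)).getD false) (by
    intro t ht y hy
    by_cases htj : t = j
    · subst htj
      rw [hy] at hne
      cases x <;> cases y <;> simp_all
    · simp [htj, hy]) j hj x hb
  cases x <;> simp at this

lemma pow_gt (k : ℕ) (hk : 1 ≤ k) : k ^ 2 + 2 < 2 * 2 ^ k := by
  induction k, hk using Nat.le_induction with
  | base => norm_num
  | succ k hk ih =>
    rw [pow_succ 2 k]
    obtain ⟨t, rfl⟩ : ∃ t, k = t + 1 := ⟨k - 1, by omega⟩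
    nlinarith [Nat.zero_le (t ^ 2)]

theorem result (n : ℕ) (hn : 1 ≤ n) (w : List (Option Bool)) (hU : Universal n w)
    (hnt : w ≠ List.replicate n none) (hW : WellDefined n w) : IsCyclic n w := by
  classical
  obtain ⟨m, rfl⟩ : ∃ m, n = m + 1 := ⟨n - 1, by omega⟩
  obtain ⟨i0, ⟨hi0, -⟩, -⟩ := hU (fun _ => false)
  obtain ⟨K, hL⟩ : ∃ K, w.length = (K + 1) + m := ⟨w.length - (m + 1), by omega⟩
  obtain ⟨d, hd⟩ := hW
  have hd' : ∀ i, i ≤ K → (∑ j ∈ range (m + 1), if ch w (i + j) = none then 1 else 0) = d := by
    intro i hi
    rw [← count_eq w (m + 1) i (by omega)]; exact hd i (by omega)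
  have hper : ∀ i < K, c w (i + 1 + m) = c w i := by
    intro i hi
    have h1 := hd' i (by omega)
    have h2 := hd' (i + 1) (by omega)
    rw [sum_range_succ'] at h1
    rw [sum_range_succ] at h2
    have h3 : (∑ j ∈ range m, if ch w (i + (j + 1)) = none then 1 else 0) =
        ∑ j ∈ range m, if ch w (i + 1 + j) = none then 1 else 0 := by
      apply sum_congr rfl; intro j _; rw [show i + (j + 1) = i + 1 + j by omega]
    rw [h3, add_zero] at h1
    unfold c
    split_ifs at h1 h2 ⊢ <;> omega
  have hMM : ∀ v, M w m 0 v ↔ M w m (K + 1) v := by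
    intro v
    have hA := sumA m (K + 1) w hL hU v
    have hB := sumB m (K + 1) w hL hU v
    rw [sum_range_succ'] at hA
    rw [sum_range_succ] at hB
    have h3 : (∑ i ∈ range K, if M w m (i + 1) v then c w (i + 1 + m) else 0) =
        ∑ i ∈ range K, if M w m (i + 1) v then c w i else 0 := by
      apply sum_congr rfl; intro i hi; rw [hper i (mem_range.1 hi)]
    rw [h3] at hA
    have p1 := c_pos w (0 + m)
    have p2 := c_pos w K
    by_cases h0 : M w m 0 v <;> by_cases h1 : M w m (K + 1) v <;> simp [h0, h1] at hA hB ⊢ <;>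
      simp at p1 <;> omega
  have hshift : ∀ j < m, ch w (K + 1 + j) = ch w j := by
    intro j hj
    have a1 := M_ext w m 0 (K + 1) (fun v => (hMM v).1) j hj
    have a2 := M_ext w m (K + 1) 0 (fun v => (hMM v).2) j hj
    rw [zero_add] at a1 a2
    rcases h : ch w (K + 1 + j) with _ | x
    · rcases h' : ch w j with _ | y
      · rfl
      · rw [a2 y h'] at h; cases h
    · exact (a1 x h).symm
  have hchget : ∀ k (hk : k < w.length), ch w k = w[k] := fun k hk => by
    unfold ch; exact List.getD_eq_getElem _ _ hk
  refine ⟨?_, ?_⟩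
  · apply List.ext_getElem
    · simp; omega
    · intro j h1 h2
      have hj : j < m := by simp at h1; omega
      simp only [List.getElem_take, List.getElem_drop]
      rw [← hchget, ← hchget, ← hshift j hj]
      congr 1; simp; omega
  by_contra hov
  have hNm : K + 1 < m := by simp at hov; omega
  -- periodicity
  have hmod : ∀ t, t < w.length → ch w t = ch w (t % (K + 1)) := by
    intro t
    induction t using Nat.strong_induction_on with
    | _ t ih =>
      intro ht
      by_cases h : t < K + 1
      · rw [Nat.mod_eq_of_lt h]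
      · obtain ⟨j, rfl⟩ : ∃ j, t = K + 1 + j := ⟨t - (K + 1), by omega⟩
        rw [hshift j (by omega), ih j (by omega) (by omega), Nat.add_mod_left]
  -- covering count
  set S : ℕ → Finset (Fin (m + 1) → Bool) := fun i => Fintype.piFinset
    (fun j : Fin (m + 1) => univ.filter (fun x : Bool => ∀ b, ch w (i + j) = some b → x = b))
    with hS
  have hScard : ∀ i ≤ K, (S i).card = 2 ^ d := by
    intro i hi
    rw [hS]; simp only [Fintype.card_piFinset]
    rw [← hd' i hi, ← prod_pow_eq_pow_sum, ← Fin.prod_univ_eq_prod_range
      (fun j => 2 ^ (if ch w (i + j) = none then 1 else 0))]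
    apply prod_congr rfl
    intro j _
    rcases ch w (i + j) with _ | b
    · simp
    · cases b <;> decide
  have hcov : (univ : Finset (Fin (m + 1) → Bool)) ⊆ (range (K + 1)).biUnion S := by
    intro u _
    obtain ⟨i, ⟨h1, h2⟩, -⟩ := hU u
    rw [mem_biUnion]
    refine ⟨i, mem_range.2 (by omega), ?_⟩
    rw [hS]; simp only [Fintype.mem_piFinset, mem_filter, mem_univ, true_and]
    exact h2
  have hcnt : 2 ^ (m + 1) ≤ (K + 1) * 2 ^ d := by
    have h1 := (card_le_card hcov).trans card_biUnion_le
    rw [sum_congr rfl (fun i hi => hScard i (by have := mem_range.1 hi; omega))] at h1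
    simpa using h1
  set Z := (range (K + 1)).filter (fun t => ch w t = some false) with hZ
  set O := (range (K + 1)).filter (fun t => ch w t = some true) with hO
  have hk : Z.card + O.card + d ≤ m + 1 := by
    have h0 := hd' 0 (by omega)
    simp only [zero_add] at h0
    have e1 : Z.card ≤ ∑ j ∈ range (m + 1), if ch w j = some false then 1 else 0 := by
      rw [← card_filter]
      exact card_le_card (filter_subset_filter _ (range_subset_range.2 (by omega)))
    have e2 : O.card ≤ ∑ j ∈ range (m + 1), if ch w j = some true then 1 else 0 := by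
      rw [← card_filter]
      exact card_le_card (filter_subset_filter _ (range_subset_range.2 (by omega)))
    have e3 : (∑ j ∈ range (m + 1), if ch w j = some false then 1 else 0) +
        (∑ j ∈ range (m + 1), if ch w j = some true then 1 else 0) +
        (∑ j ∈ range (m + 1), if ch w j = none then 1 else 0) = m + 1 := by
      rw [← sum_add_distrib, ← sum_add_distrib]
      rw [sum_congr rfl (g := fun _ => 1)]
      · simp
      · intro j _
        rcases ch w j with _ | b
        · simp
        · cases b <;> simp
    omega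
  -- conflicts
  have hconf : ∀ s ∈ Icc 1 K, ∃ p ∈ (Z ×ˢ O) ∪ (O ×ˢ Z), (p.1 + s) % (K + 1) = p.2 := by
    intro s hs
    rw [mem_Icc] at hs
    by_contra hno
    push Not at hno
    let u : Fin (m + 1) → Bool := fun j => (ch w j).getD ((ch w (s + j)).getD false)
    obtain ⟨i, -, hu⟩ := hU u
    have c0 : Covers (m + 1) w u 0 := ⟨by omega, fun j b hb => by
      rw [zero_add] at hb; simp [u, hb]⟩
    have cs : Covers (m + 1) w u s := ⟨by omega, fun j b hb => by
      rcases h : ch w j with _ | x
      · simp [u, h, hb]
      · by_contra hne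
        have hx : x ≠ b := by simpa [u, h] using hne
        have hj := j.2
        rw [hmod _ (by omega)] at h hb
        have q1 : (j : ℕ) % (K + 1) < K + 1 := Nat.mod_lt _ (by omega)
        have q2 : (s + j) % (K + 1) < K + 1 := Nat.mod_lt _ (by omega)
        apply hno ((j : ℕ) % (K + 1), (s + j) % (K + 1))
        · rw [hZ, hO]
          cases x <;> cases b <;> simp_all
        · simp [Nat.add_comm]⟩
    have := (hu 0 c0).trans (hu s cs).symm
    omega
  have hK : K ≤ 2 * (Z.card * O.card) := by
    choose! f hf using hconf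
    have h1 : (Icc 1 K).card ≤ ((Z ×ˢ O) ∪ (O ×ˢ Z)).card := by
      apply card_le_card_of_injOn f (fun s hs => (hf s hs).1)
      intro s hs t ht hst
      have a1 := (hf s hs).2
      have a2 := (hf t ht).2
      rw [hst, ← a2] at a1
      have a3 : s % (K + 1) = t % (K + 1) := Nat.ModEq.add_left_cancel' _ a1
      simp only [coe_Icc, Set.mem_Icc] at hs ht
      rwa [Nat.mod_eq_of_lt (by omega), Nat.mod_eq_of_lt (by omega)] at a3
    have h2 := card_union_le (Z ×ˢ O) (O ×ˢ Z)
    rw [card_product, card_product] at h2
    simp at h1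
    nlinarith
  obtain ⟨k, hkd⟩ : ∃ k, m + 1 = k + d := ⟨m + 1 - d, by omega⟩
  have h2k : 2 ^ k ≤ K + 1 := by
    rw [hkd, pow_add] at hcnt
    exact Nat.le_of_mul_le_mul_right hcnt (by positivity)
  have hzo : Z.card + O.card ≤ k := by omega
  by_cases hk0 : k = 0
  · have hz : Z.card = 0 := by omega
    rw [hz] at hK
    have hK0 : K = 0 := by omega
    apply hnt
    have h0 := hd 0 (by omega)
    rw [List.drop_zero, List.take_of_length_le (by omega)] at h0
    rw [List.eq_replicate_iff]
    refine ⟨by omega, fun b hb => ?_⟩
    exact ((List.count_eq_length (a := none) (l := w)).1 (by omega) b hb).symm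
  · have := pow_gt k (by omega)
    have h4 : 4 * (Z.card * O.card) ≤ (Z.card + O.card) ^ 2 := by
      have : (4 * (Z.card * O.card) : ℤ) ≤ ((Z.card : ℤ) + O.card) ^ 2 := by
        nlinarith [sq_nonneg ((Z.card : ℤ) - O.card)]
      exact_mod_cast this
    have h5 : (Z.card + O.card) ^ 2 ≤ k ^ 2 := Nat.pow_le_pow_left hzo 2
    omega

end Pool.Agent.Results.MP_e9025c_co.Cyclic
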